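import Pool.Agent.helper19.FR.Spec

/-!
# Row `fr:FOK` (project FR, MP_bf63dc_nt)

Averages over a Foelner set and over its dilate are close to each other and to the average over the
whole set `W`.
-/

set_option autoImplicit false

namespace Pool.Agent.FR

open Finset Real Pool.Agent.AT Pool.Agent.OM Pool.Agent.helper85.FC

/-- the sum over a subset `A` of `W` of a function with values in `[0, 1]` -/
lemma FOK_sub (A W : Finset ℕ) (G : ℕ → ℝ) (hAW : A ⊆ W) (hG : ∀ w ∈ W, 0 ≤ G w ∧ G w ≤ 1) :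
    (∑ v ∈ A, G v) ≤ ∑ w ∈ W, G w ∧ (∑ w ∈ W, G w) - ((#W : ℝ) - #A) ≤ ∑ v ∈ A, G v := by
  have h1 : ∑ v ∈ W \ A, G v + ∑ v ∈ A, G v = ∑ w ∈ W, G w := Finset.sum_sdiff hAW
  have h2 : 0 ≤ ∑ v ∈ W \ A, G v :=
    Finset.sum_nonneg fun v hv => (hG v (Finset.mem_sdiff.1 hv).1).1
  have h3 : ∑ v ∈ W \ A, G v ≤ (#(W \ A) : ℝ) := by
    have h := Finset.sum_le_sum (s := W \ A) (f := G) (g := fun _ => (1 : ℝ))
      (fun v hv => (hG v (Finset.mem_sdiff.1 hv).1).2)
    simpa using h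
  have h4 : (#(W \ A) : ℝ) = (#W : ℝ) - #A := by
    have h := Finset.card_sdiff_add_card_eq_card hAW
    have h' : ((#(W \ A) : ℝ)) + (#A : ℝ) = (#W : ℝ) := by exact_mod_cast h
    linarith
  constructor
  · linarith
  · linarith

theorem FOK : FOK_stmt := by
  intro Φ W s η α G hs hΦ hα hΦW hsW hcard hG
  have hpos : (0 : ℝ) < (#Φ : ℝ) := by exact_mod_cast hΦ
  have hinj : Function.Injective (fun v : ℕ => v * s) := fun a b h => Nat.eq_of_mul_eq_mul_right hs h
  have hSsum : ∑ w ∈ Φ.image (fun v : ℕ => v * s), G w = ∑ v ∈ Φ, G (v * s) :=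
    Finset.sum_image fun a _ b _ h => hinj h
  have hScard : #(Φ.image (fun v : ℕ => v * s)) = #Φ := Finset.card_image_of_injective Φ hinj
  have hSW : Φ.image (fun v : ℕ => v * s) ⊆ W := by
    intro w hw
    obtain ⟨v, hv, rfl⟩ := Finset.mem_image.1 hw
    exact hsW v hv
  obtain ⟨a1, a2⟩ := FOK_sub Φ W G hΦW hG
  obtain ⟨b1, b2⟩ := FOK_sub _ W G hSW hG
  rw [hSsum] at b1 b2
  rw [hScard] at b2
  have hΦle : (#Φ : ℝ) ≤ (#W : ℝ) := by exact_mod_cast Finset.card_le_card hΦW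
  constructor
  · rw [← sub_div, abs_div, abs_of_pos hpos, div_le_iff₀ hpos, abs_le]
    constructor
    · nlinarith
    · nlinarith
  · intro hαW
    rw [le_div_iff₀ hpos]
    have h1 : α * (#Φ : ℝ) ≤ α * (#W : ℝ) := mul_le_mul_of_nonneg_left hΦle hα
    nlinarith

end Pool.Agent.FR
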